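import Pool.Agent.W626.AH.Stm

/-!
# AH-CLO: the data form a closed set
-/

set_option autoImplicit false

namespace Pool.Agent.W359.AH.Clo

open Pool.Agent.H67R3.RHDefs Pool.Agent.W626.AH

variable {n : ℕ}

/-- the space of pairs -/
abbrev Z (n : ℕ) : Type := Marked n × (FreeGroup (Fin n) → ℝ)

lemma clopen_mem (w : FreeGroup (Fin n)) : IsClopen {N : Marked n | w ∈ N.1} := by
  classical
  have h : IsClopen ((fun f : FreeGroup (Fin n) → Bool => f w) ⁻¹' {true}) :=
    ⟨(isClosed_discrete _).preimage (continuous_apply w),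
      (isOpen_discrete _).preimage (continuous_apply w)⟩
  have hc : Continuous (fun N : Marked n =>
      (fun w : FreeGroup (Fin n) => decide (w ∈ N.1))) := continuous_induced_dom
  have h2 := h.preimage hc
  have e : {N : Marked n | w ∈ N.1} = (fun N : Marked n =>
      (fun w : FreeGroup (Fin n) => decide (w ∈ N.1))) ⁻¹'
        ((fun f : FreeGroup (Fin n) → Bool => f w) ⁻¹' {true}) := by
    ext N
    simp
  rw [e]
  exact h2

lemma open_mem (w : FreeGroup (Fin n)) : IsOpen {z : Z n | w ∈ z.1.1} :=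
  (clopen_mem w).isOpen.preimage continuous_fst

lemma open_not_mem (w : FreeGroup (Fin n)) : IsOpen {z : Z n | w ∉ z.1.1} :=
  (clopen_mem w).compl.isOpen.preimage continuous_fst

lemma cont (w : FreeGroup (Fin n)) : Continuous (fun z : Z n => z.2 w) :=
  (continuous_apply w).comp continuous_snd

lemma cont_vd (p q : FreeGroup (Fin n) × FreeGroup (Fin n) × ℝ × ℝ) :
    Continuous (fun z : Z n => vd (nd z.2) p q) := by
  unfold vd nd
  exact ((((cont _).sub continuous_const).sub continuous_const).max
    (((cont _).sub continuous_const).sub continuous_const)).max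
    ((((cont _).sub continuous_const).sub continuous_const).max
    (((cont _).sub continuous_const).sub continuous_const))

lemma open_VP (p : FreeGroup (Fin n) × FreeGroup (Fin n) × ℝ × ℝ) :
    IsOpen {z : Z n | VP (nd z.2) p} := by
  unfold VP nd
  refine isOpen_const.and (isOpen_const.and ?_)
  exact isOpen_lt (continuous_const.sub (cont _)).abs continuous_const

lemma closed_imp {X : Type} [TopologicalSpace X] {a b : X → Prop} (ha : IsOpen {x | a x})
    (hb : IsClosed {x | b x}) : IsClosed {x | a x → b x} := by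
  have e : {x | a x → b x} = {x | a x}ᶜ ∪ {x | b x} := by
    ext x
    simp only [Set.mem_setOf_eq, Set.mem_union, Set.mem_compl_iff]
    tauto
  rw [e]
  exact ha.isClosed_compl.union hb

theorem main : Pool.Agent.W626.AH.S_clo := by
  intro n R M q B g
  have hset : {z : Z n | z.2 ∈ box n ∧ FCond z.1.1 z.2 R M g q B} =
      {z : Z n | ∀ w, 0 ≤ z.2 w ∧ z.2 w ≤ w.norm} ∩
      ({z : Z n | ∀ w, w ∈ z.1.1 → z.2 w = 0} ∩
      ({z : Z n | ∀ w, z.2 w⁻¹ = z.2 w} ∩
      ({z : Z n | ∀ u v, z.2 (u * v) ≤ z.2 u + z.2 v} ∩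
      ({z : Z n | ∀ x y u w, nd z.2 x y + nd z.2 u w ≤
        max (nd z.2 x u + nd z.2 y w) (nd z.2 x w + nd z.2 y u) + 1} ∩
      ({z : Z n | ∀ p p' : FreeGroup (Fin n) × FreeGroup (Fin n) × ℝ × ℝ,
        VP (nd z.2) p → VP (nd z.2) p' → (R : ℝ) < vd (nd z.2) p p' →
        ∀ T : Finset (FreeGroup (Fin n)), M < T.card →
          (∀ a ∈ T, ∀ b ∈ T, a ≠ b → a⁻¹ * b ∉ z.1.1) →
          ∃ a ∈ T, 8 ≤ vd (nd z.2) p (mv a p) ∨ 8 ≤ vd (nd z.2) p' (mv a p')} ∩
      {z : Z n | ∀ k : ℕ, (k : ℝ) ≤ (q + 1) * (z.2 (g ^ k) + B)}))))) := by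
    ext z
    simp only [Set.mem_setOf_eq, Set.mem_inter_iff]
    constructor
    · rintro ⟨h1, h2⟩
      exact ⟨h1, h2.ker, h2.inv, h2.mul, h2.hyp, h2.acy, h2.lox⟩
    · rintro ⟨h1, h2, h3, h4, h5, h6, h7⟩
      exact ⟨h1, ⟨h2, h3, h4, h5, h6, h7⟩⟩
  change IsClosed {z : Z n | z.2 ∈ box n ∧ FCond z.1.1 z.2 R M g q B}
  rw [hset]
  refine IsClosed.inter ?_ (IsClosed.inter ?_ (IsClosed.inter ?_ (IsClosed.inter ?_
    (IsClosed.inter ?_ (IsClosed.inter ?_ ?_)))))
  · rw [Set.setOf_forall]
    refine isClosed_iInter fun w => ?_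
    rw [Set.setOf_and]
    exact (isClosed_le continuous_const (cont w)).inter (isClosed_le (cont w) continuous_const)
  · rw [Set.setOf_forall]
    refine isClosed_iInter fun w => ?_
    exact closed_imp (open_mem w) (isClosed_eq (cont w) continuous_const)
  · rw [Set.setOf_forall]
    exact isClosed_iInter fun w => isClosed_eq (cont _) (cont _)
  · simp only [Set.setOf_forall]
    exact isClosed_iInter fun u => isClosed_iInter fun v =>
      isClosed_le (cont _) ((cont _).add (cont _))
  · simp only [Set.setOf_forall]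
    refine isClosed_iInter fun x => isClosed_iInter fun y => isClosed_iInter fun u =>
      isClosed_iInter fun w => ?_
    unfold nd
    exact isClosed_le ((cont _).add (cont _))
      ((((cont _).add (cont _)).max ((cont _).add (cont _))).add continuous_const)
  · rw [Set.setOf_forall]
    refine isClosed_iInter fun p => ?_
    rw [Set.setOf_forall]
    refine isClosed_iInter fun p' => ?_
    refine closed_imp (open_VP p) (closed_imp (open_VP p') (closed_imp
      (isOpen_lt continuous_const (cont_vd p p')) ?_))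
    rw [Set.setOf_forall]
    refine isClosed_iInter fun T => ?_
    refine closed_imp isOpen_const (closed_imp ?_ ?_)
    · have e : {z : Z n | ∀ a ∈ T, ∀ b ∈ T, a ≠ b → a⁻¹ * b ∉ z.1.1} =
          ⋂ a ∈ T, ⋂ b ∈ T, {z : Z n | a ≠ b → a⁻¹ * b ∉ z.1.1} := by
        ext z
        simp only [Set.mem_setOf_eq, Set.mem_iInter]
      rw [e]
      refine isOpen_biInter_finset fun a _ => isOpen_biInter_finset fun b _ => ?_
      by_cases hab : a = b
      · have e2 : {z : Z n | a ≠ b → a⁻¹ * b ∉ z.1.1} = Set.univ := by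
          ext z
          simp [hab]
        rw [e2]
        exact isOpen_univ
      · have e2 : {z : Z n | a ≠ b → a⁻¹ * b ∉ z.1.1} = {z : Z n | a⁻¹ * b ∉ z.1.1} := by
          ext z
          simp [hab]
        rw [e2]
        exact open_not_mem _
    · have e : {z : Z n | ∃ a ∈ T, 8 ≤ vd (nd z.2) p (mv a p) ∨ 8 ≤ vd (nd z.2) p' (mv a p')} =
          ⋃ a ∈ T, ({z : Z n | 8 ≤ vd (nd z.2) p (mv a p)} ∪
            {z : Z n | 8 ≤ vd (nd z.2) p' (mv a p')}) := by
        ext z
        simp only [Set.mem_setOf_eq, Set.mem_iUnion, Set.mem_union, exists_prop]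
      rw [e]
      exact T.finite_toSet.isClosed_biUnion fun a _ =>
        (isClosed_le continuous_const (cont_vd _ _)).union
          (isClosed_le continuous_const (cont_vd _ _))
  · rw [Set.setOf_forall]
    exact isClosed_iInter fun k => isClosed_le continuous_const
      (continuous_const.mul ((cont _).add continuous_const))

end Pool.Agent.W359.AH.Clo
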